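import Pool.Agent.H94.CB.H13.OT.Wrap
import Pool.Agent.H94.CB.M63
import Pool.Agent.H94.CB.M90

/-!
# SA StartF: the model of an open surface which is proper over an affine variety
-/

set_option autoImplicit false

open Topology Filter MvPolynomial

noncomputable section

namespace Pool.Agent.H62.SA

attribute [-instance] ProperSMul.toContinuousSMul

open Pool.Agent.H17 (PN VanishesAt ZariskiClosedIn HolomorphicInto puncturedDisc)
open Pool.Agent.H62.FC (Homog)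
open Pool.Agent.H17BP (Surface IsChart IsForm NoZeros Pr HolP Picard Eqs Tan rep_mk_fin eval_smul_form rep_mem_cone vanishesAt_mk holP_rep)
open Pool.Agent.H36.BPL (OpenPart AffProper PoleLE ModelK Brody2 analyticAt_form isForm_pow_mul picard_of_modelK)
open Pool.Agent.H13.OT (OrderTwo brody2_of_curves)
open Pool.Agent.H68.KR (cone)

variable {N : ℕ} {P : Ideal (MvPolynomial (Fin (N + 1)) ℂ)} {s M : ℕ} {G : Fin s → MvPolynomial (Fin (N + 1)) ℂ}
  {F : Fin s → Fin (M + 1) → MvPolynomial (Fin (N + 1)) ℂ} {e : Fin s → ℕ}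

theorem IsProperMap.homG (h : IsProperMap P G F e) (m : Fin s) : (G m).IsHomogeneous (e m) := by
  rw [← h.zero m]
  exact h.hom m 0

theorem rep_mem_locCone (hP : Homog P) {x : PN N} : x.rep ∈ locCone P G ↔ x ∈ locVar P G := by
  constructor
  · rintro ⟨h2, m, h3⟩
    exact ⟨((rep_mem_cone hP).1 h2).1, m, h3⟩
  · rintro ⟨h2, m, h3⟩
    exact ⟨(rep_mem_cone hP).2 ⟨h2, fun m => m.elim0⟩, m, h3⟩

theorem mk_mem_locVar (hP : Homog P) (hG : ∀ m, (G m).IsHomogeneous (e m)) {x : Fin (N + 1) → ℂ} (hx : x ≠ 0) :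
    Projectivization.mk ℂ x hx ∈ locVar P G ↔ x ∈ locCone P G := by
  rw [← rep_mem_locCone hP]
  obtain ⟨a, ha, h⟩ := rep_mk_fin hx
  rw [h]
  constructor
  · intro h1
    have h2 := locCone_smul hP hG _ h1 a⁻¹ (inv_ne_zero ha)
    rwa [smul_smul, inv_mul_cancel₀ ha, one_smul] at h2
  · intro h1
    exact locCone_smul hP hG _ h1 a ha

theorem IsProperMap.noZero_cone (h : IsProperMap P G F e) (hP : Homog P) {x : Fin (N + 1) → ℂ} (hx : x ∈ cone P) :
    ∃ m j, eval x (F m j) ≠ 0 := by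
  obtain ⟨a, ha, h1⟩ := rep_mk_fin hx.1
  have h2 : (Projectivization.mk ℂ x hx.1).rep ∈ cone P := by
    rw [h1]
    exact Pool.Agent.H68.KR.cone_smul hP hx ha
  obtain ⟨m, j, h3⟩ := h.noZero (Projectivization.mk ℂ x hx.1) ((rep_mem_cone hP).1 h2).1
  refine ⟨m, j, fun h4 => h3 ?_⟩
  rw [vanishesAt_mk (h.hom m j) hx.1]
  exact h4

theorem IsProperMap.eval_rel (h : IsProperMap P G F e) {x : Fin (N + 1) → ℂ} (hx : x ∈ cone P) (m n : Fin s)
    (j : Fin (M + 1)) : eval x (F m j) * eval x (G n) = eval x (F n j) * eval x (G m) := by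
  have h1 := hx.2 _ (h.rel m n j)
  rw [map_sub, map_mul, map_mul] at h1
  exact sub_eq_zero.1 h1

/-- If some `F m j` does not vanish then `G m` is an equation of the boundary. -/
theorem IsProperMap.mem_iff (h : IsProperMap P G F e) {x : Fin (N + 1) → ℂ} (hx : x ∈ cone P) {m : Fin s}
    {j : Fin (M + 1)} (hm : eval x (F m j) ≠ 0) : x ∈ locCone P G ↔ eval x (G m) ≠ 0 := by
  constructor
  · rintro ⟨-, n, hn⟩ h0
    have h1 := h.eval_rel hx m n j
    rw [h0, mul_zero] at h1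
    exact mul_ne_zero hm hn h1
  · intro h1
    exact ⟨hx, m, h1⟩

theorem openPart_locCone (h : IsProperMap P G F e) (hP : Homog P) : OpenPart (cone P) (locCone P G) where
  sub := locCone_subset G
  smul := locCone_smul hP h.homG
  eqn x hx := by
    obtain ⟨m, j, hm⟩ := h.noZero_cone hP hx
    refine ⟨fun y => eval y (G m), analyticAt_form _ x, ?_⟩
    filter_upwards [(analyticAt_form (F m j) x).continuousAt.eventually_ne hm] with y hy hyX
    rw [h.mem_iff hyX hy, not_not]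

/-- The map to the affine space. -/
def affF (G : Fin s → MvPolynomial (Fin (N + 1)) ℂ) (F : Fin s → Fin (M + 1) → MvPolynomial (Fin (N + 1)) ℂ)
    (x : Fin (N + 1) → ℂ) (j : Fin (M + 1)) : ℂ :=
  open Classical in if h : ∃ m, eval x (G m) ≠ 0 then eval x (F h.choose j) / eval x (G h.choose) else 0

theorem IsProperMap.affF_eq (h : IsProperMap P G F e) {x : Fin (N + 1) → ℂ} (hx : x ∈ cone P) {m : Fin s}
    (hm : eval x (G m) ≠ 0) (j : Fin (M + 1)) : affF G F x j = eval x (F m j) / eval x (G m) := by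
  have h1 : ∃ m, eval x (G m) ≠ 0 := ⟨m, hm⟩
  unfold affF
  rw [dif_pos h1, div_eq_div_iff h1.choose_spec hm]
  exact h.eval_rel hx _ _ j

theorem affProper_locCone (h : IsProperMap P G F e) (hP : Homog P) :
    AffProper (cone P) (locCone P G) (affF G F) where
  smul x hx c hc := by
    obtain ⟨hxc, m, hm⟩ := hx
    have h1 : eval (c • x) (G m) ≠ 0 := by
      rw [eval_smul_form (h.homG m)]
      exact mul_ne_zero (pow_ne_zero _ hc) hm
    funext j
    rw [h.affF_eq (Pool.Agent.H68.KR.cone_smul hP hxc hc) h1, h.affF_eq hxc hm, eval_smul_form (h.homG m),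
      eval_smul_form (h.hom m j), mul_div_mul_left _ _ (pow_ne_zero _ hc)]
  cont := by
    rintro x ⟨hxc, m, hm⟩
    rw [continuousWithinAt_pi]
    intro j
    have h1 : ContinuousWithinAt (fun y : Fin (N + 1) → ℂ => eval y (F m j) / eval y (G m)) (locCone P G) x :=
      ((analyticAt_form _ x).continuousAt.div (analyticAt_form _ x).continuousAt hm).continuousWithinAt
    refine h1.congr_of_eventuallyEq ?_ (h.affF_eq hxc hm j)
    have h2 : ∀ᶠ y in 𝓝[locCone P G] x, eval y (G m) ≠ 0 :=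
      ((analyticAt_form (G m) x).continuousAt.eventually_ne hm).filter_mono nhdsWithin_le_nhds
    filter_upwards [h2, self_mem_nhdsWithin] with y h3 h4
    exact h.affF_eq h4.1 h3 j
  hol f z₀ hf hfK := by
    obtain ⟨hxc, m, hm⟩ := hfK.self_of_nhds
    rw [analyticAt_pi_iff]
    intro j
    have hG : AnalyticAt ℂ (fun z => eval (f z) (G m)) z₀ :=
      AnalyticAt.comp (g := fun y : Fin (N + 1) → ℂ => eval y (G m)) (f := f) (analyticAt_form _ _) hf
    have hF : AnalyticAt ℂ (fun z => eval (f z) (F m j)) z₀ :=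
      AnalyticAt.comp (g := fun y : Fin (N + 1) → ℂ => eval y (F m j)) (f := f) (analyticAt_form _ _) hf
    refine (hF.div hG hm).congr ?_
    filter_upwards [hG.continuousAt.eventually_ne hm, hfK] with z h1 h2
    exact (h.affF_eq h2.1 h1 j).symm
  proper x hx hxK R := by
    obtain ⟨m, j, hm⟩ := h.noZero_cone hP hx
    have h0 : eval x (G m) = 0 := by
      by_contra h1
      exact hxK ((h.mem_iff hx hm).2 h1)
    have hc : 0 < ‖eval x (F m j)‖ / 2 := by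
      have := norm_pos_iff.2 hm
      positivity
    have h1 : ∀ᶠ y in 𝓝 x, ‖eval x (F m j)‖ / 2 < ‖eval y (F m j)‖ := by
      have h2 : ContinuousAt (fun y : Fin (N + 1) → ℂ => ‖eval y (F m j)‖) x := (analyticAt_form _ x).continuousAt.norm
      exact h2.eventually_const_lt (by linarith)
    have h3 : ∀ᶠ y in 𝓝 x, ‖eval y (G m)‖ < ‖eval x (F m j)‖ / 2 / (|R| + 1) := by
      have h4 : ContinuousAt (fun y : Fin (N + 1) → ℂ => ‖eval y (G m)‖) x := (analyticAt_form _ x).continuousAt.norm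
      refine h4.eventually_lt_const ?_
      show ‖eval x (G m)‖ < ‖eval x (F m j)‖ / 2 / (|R| + 1)
      rw [h0, norm_zero]
      positivity
    filter_upwards [h1, h3, (analyticAt_form (F m j) x).continuousAt.eventually_ne hm] with y hy1 hy2 hy3 hyK
    have hne : eval y (G m) ≠ 0 := (h.mem_iff hyK.1 hy3).1 hyK
    have hpos : 0 < ‖eval y (G m)‖ := norm_pos_iff.2 hne
    have h5 : |R| + 1 < ‖affF G F y j‖ := by
      rw [h.affF_eq hyK.1 hne j, norm_div, lt_div_iff₀ hpos]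
      have h6 : 0 < |R| + 1 := by positivity
      have h7 := (lt_div_iff₀ h6).1 hy2
      linarith
    calc R ≤ |R| := le_abs_self R
      _ < |R| + 1 := by linarith
      _ < ‖affF G F y j‖ := h5
      _ ≤ ‖affF G F y‖ := norm_le_pi_norm _ j
  iso f z₀ hf hfX := by
    obtain ⟨m, j, hm⟩ := h.noZero_cone hP hfX.self_of_nhds
    have hG : AnalyticAt ℂ (fun z => eval (f z) (G m)) z₀ :=
      AnalyticAt.comp (g := fun y : Fin (N + 1) → ℂ => eval y (G m)) (f := f) (analyticAt_form _ _) hf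
    have hF : AnalyticAt ℂ (fun z => eval (f z) (F m j)) z₀ :=
      AnalyticAt.comp (g := fun y : Fin (N + 1) → ℂ => eval y (F m j)) (f := f) (analyticAt_form _ _) hf
    have hne : ∀ᶠ z in 𝓝 z₀, eval (f z) (F m j) ≠ 0 := hF.continuousAt.eventually_ne hm
    rcases hG.eventually_eq_zero_or_eventually_ne_zero with h3 | h3
    · left
      filter_upwards [h3, hfX, hne] with z h4 h5 h6 h7
      exact (h.mem_iff h5 h6).1 h7 h4
    · right
      filter_upwards [h3, hfX.filter_mono nhdsWithin_le_nhds] with z h4 h5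
      exact ⟨h5, m, h4⟩

/-- The initial model. -/
theorem modelK_startF [hPp : P.IsPrime] (hP : Homog P) (h : IsProperMap P G F e) (hX : Surface (cone P))
    (hthin : ∀ σ τ, IsChart (cone P) σ τ → ∀ (d : ℕ) (Q : MvPolynomial (Fin (N + 1)) ℂ), Q.IsHomogeneous d →
      Q ∉ P → ∃ᶠ p in 𝓝 (0 : ℂ × ℂ), eval (σ p) Q ≠ 0)
    {m₀ : Fin s} (hm₀ : G m₀ ∉ P)
    {k D₀ D₁ : ℕ} (hk : 1 ≤ k) {Ω : (Fin (N + 1) → ℂ) → (Fin (N + 1) → ℂ) → (Fin (N + 1) → ℂ) → ℂ}
    (hΩ : IsForm (locCone P G) k 1 Ω) (hpole : PoleLE (cone P) (locCone P G) k Ω)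
    {Q₀ : MvPolynomial (Fin (N + 1)) ℂ} (hQ₀ : Q₀.IsHomogeneous D₀) (hQ₀P : Q₀ ∉ P)
    (hz : NoZeros (locCone P G) {x | x ∈ locCone P G ∧ eval x Q₀ = 0} Ω)
    {Q₁ : MvPolynomial (Fin (N + 1)) ℂ} (hQ₁ : Q₁.IsHomogeneous D₁) (hQ₁P : Q₁ ∉ P) (hD₁ : 1 ≤ D₁)
    (hb : Brody2 (locCone P G) {x | x ∈ cone P ∧ eval x Q₁ = 0}) :
    ModelK (cone P) (locCone P G) {x | x ∈ cone P ∧ eval x (G m₀ * Q₀ * Q₁) = 0} (k * (e m₀ + 1)) 1
      (fun x v w => eval x (G m₀) * Ω x v w ^ (e m₀ + 1))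
      (fun (_ : Unit) x => eval x (G m₀ * Q₀ * Q₁)) (e m₀ + D₀ + D₁) := by
  set d := e m₀ with hd
  have hH₀ : (G m₀).IsHomogeneous d := h.homG m₀
  set Q : MvPolynomial (Fin (N + 1)) ℂ := G m₀ * Q₀ * Q₁ with hQdef
  have hQhom : Q.IsHomogeneous (d + D₀ + D₁) := (hH₀.mul hQ₀).mul hQ₁
  have hQP : Q ∉ P := by
    intro h
    rcases hPp.mem_or_mem h with h | h
    · rcases hPp.mem_or_mem h with h | h
      · exact hm₀ h
      · exact hQ₀P h
    · exact hQ₁P h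
  have hout : ∀ x ∈ cone P, x ∉ locCone P G → eval x (G m₀) = 0 := by
    intro x hx hxK
    by_contra h1
    exact hxK ⟨hx, m₀, h1⟩
  have hform := isForm_pow_mul (k := d + 1) (d := d) (by omega) hΩ (H := fun x => eval x (G m₀)) (analyticAt_form _)
    (fun c x => eval_smul_form hH₀ c x) (locCone_smul hP h.homG)
  have h1 : 1 * (d + 1) - d = 1 := by omega
  rw [h1] at hform
  refine ⟨hX, openPart_locCone h hP, ⟨M + 1, affF G F, affProper_locCone h hP⟩, ?_, Nat.mul_pos hk (Nat.succ_pos _), le_rfl,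
    hform, ?_, ?_, ⟨by omega, ?_, ?_, ?_, ?_⟩, ?_, ?_⟩
  · intro x hx hxK
    refine ⟨hx, ?_⟩
    rw [hQdef, map_mul, map_mul, hout x hx hxK, zero_mul, zero_mul]
  · intro x hx hxT v hv w hw hi
    have h2 : eval x (G m₀) ≠ 0 := by
      intro h0
      refine hxT ⟨hx.1, ?_⟩
      rw [hQdef, map_mul, map_mul, h0, zero_mul, zero_mul]
    refine mul_ne_zero h2 (pow_ne_zero _ (hz x hx (fun h => hxT ⟨hx.1, ?_⟩) v hv w hw hi))
    rw [hQdef, map_mul, map_mul, h.2, mul_zero, zero_mul]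
  · exact PoleLE.pow_mul hk (Nat.succ_pos d) hpole (H := fun x => eval x (G m₀)) (analyticAt_form _) hout
  · intro _ x
    exact analyticAt_form Q x
  · intro _ c x
    exact eval_smul_form hQhom c x
  · intro x
    exact ⟨fun h => ⟨h.1, fun _ => h.2⟩, fun h => ⟨h.1, h.2 ()⟩⟩
  · intro x hx
    exact ⟨(), Eventually.of_forall fun y hy h => ⟨hy, h⟩⟩
  · intro σ τ h
    exact (hthin σ τ h _ Q hQhom hQP).mono fun p hp hpB => hp hpB.2
  · rintro f hf hfX hf2 ⟨z₁, hz₁⟩ z w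
    refine hb f hf hfX hf2 ⟨z₁, fun h => hz₁ ⟨h.1, ?_⟩⟩ z w
    rw [hQdef, map_mul, h.2, mul_zero]

/-- **The model of an open surface which is proper over an affine variety**, with a section of a multiple of the logarithmic canonical
bundle minus a hyperplane, such that the nonconstant entire curves of order at most two lie in a proper closed subset. -/
theorem exists_modelF [hPp : P.IsPrime] (hP : Homog P) (h : IsProperMap P G F e) (hX : Surface (cone P))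
    (hthin : ∀ σ τ, IsChart (cone P) σ τ → ∀ (d : ℕ) (Q : MvPolynomial (Fin (N + 1)) ℂ), Q.IsHomogeneous d →
      Q ∉ P → ∃ᶠ p in 𝓝 (0 : ℂ × ℂ), eval (σ p) Q ≠ 0)
    {k D₀ : ℕ} (hk : 1 ≤ k) {Ω : (Fin (N + 1) → ℂ) → (Fin (N + 1) → ℂ) → (Fin (N + 1) → ℂ) → ℂ}
    (hΩ : IsForm (locCone P G) k 1 Ω) (hpole : PoleLE (cone P) (locCone P G) k Ω)
    {Q₀ : MvPolynomial (Fin (N + 1)) ℂ} (hQ₀ : Q₀.IsHomogeneous D₀) (hQ₀P : Q₀ ∉ P)
    (hz : NoZeros (locCone P G) {x | x ∈ locCone P G ∧ eval x Q₀ = 0} Ω) {Ξ : Set (PN N)}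
    (hΞ : ZariskiClosedIn (locVar P G) Ξ) (hne : Ξ ≠ locVar P G)
    (hbr : ∀ f : ℂ → PN N, HolomorphicInto f Set.univ → OrderTwo f → (∀ z, f z ∈ locVar P G) →
      (∃ z w, f z ≠ f w) → ∀ z, f z ∈ Ξ) :
    ∃ (Q : MvPolynomial (Fin (N + 1)) ℂ) (D : ℕ), Q.IsHomogeneous D ∧ Q ∉ P ∧
      (∃ x ∈ locVar P G, ¬ VanishesAt Q x) ∧ (∀ x ∈ Ξ, VanishesAt Q x) ∧
      ∃ (m j : ℕ) (Ω' : (Fin (N + 1) → ℂ) → (Fin (N + 1) → ℂ) → (Fin (N + 1) → ℂ) → ℂ),
        ModelK (cone P) (locCone P G) {x | x ∈ cone P ∧ eval x Q = 0} m j Ω' (fun (_ : Unit) x => eval x Q) D := by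
  classical
  obtain ⟨S, hS, rfl⟩ := hΞ
  -- a form which vanishes on the exceptional set
  obtain ⟨x₁, hx₁, hx₁S⟩ : ∃ x ∈ locVar P G, ∃ Q ∈ S, ¬ VanishesAt Q x := by
    by_contra hcon
    push Not at hcon
    apply hne
    ext x
    exact ⟨fun h => h.1, fun h => ⟨h, hcon x h⟩⟩
  obtain ⟨Q₁, hQ₁S, hQ₁x⟩ := hx₁S
  obtain ⟨d₁, hQ₁⟩ := hS Q₁ hQ₁S
  have hQ₁P : Q₁ ∉ P := fun h => hQ₁x (hx₁.1 Q₁ h d₁ hQ₁)
  have hx₁K : x₁.rep ∈ locCone P G := (rep_mem_locCone hP).2 hx₁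
  obtain ⟨m₀, hm₀x⟩ := hx₁K.2
  have hm₀ : G m₀ ∉ P := fun h => hm₀x (hx₁K.1.2 _ h)
  obtain ⟨l, hl⟩ : ∃ l, x₁.rep l ≠ 0 := by
    by_contra hcon
    push Not at hcon
    exact x₁.rep_nonzero (funext hcon)
  have hlP : (X l : MvPolynomial (Fin (N + 1)) ℂ) ∉ P := by
    intro h
    have := hx₁K.1.2 _ h
    rw [eval_X] at this
    exact hl this
  have hQ₂ : (Q₁ * X l).IsHomogeneous (d₁ + 1) := hQ₁.mul (isHomogeneous_X ℂ l)
  have hQ₂P : Q₁ * X l ∉ P := fun h => (hPp.mem_or_mem h).elim hQ₁P hlP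
  have hBr : Brody2 (locCone P G) {x | x ∈ cone P ∧ eval x (Q₁ * X l) = 0} := by
    refine brody2_of_curves (fun x hx => hx.1.1) (fun x hx0 hx => (mk_mem_locVar hP h.homG hx0).2 hx) ?_ hbr
    intro x hx0 hx hxΞ
    have h2 := hxΞ.2 Q₁ hQ₁S
    rw [vanishesAt_mk hQ₁] at h2
    refine ⟨hx.1, ?_⟩
    rw [map_mul, h2, zero_mul]
  have hmodel := modelK_startF hP h hX hthin hm₀ hk hΩ hpole hQ₀ hQ₀P hz hQ₂ hQ₂P (by omega) hBr
  set Q : MvPolynomial (Fin (N + 1)) ℂ := G m₀ * Q₀ * (Q₁ * X l) with hQdef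
  have hQhom : Q.IsHomogeneous (e m₀ + D₀ + (d₁ + 1)) := ((h.homG m₀).mul hQ₀).mul hQ₂
  have hQP : Q ∉ P := by
    intro h'
    rcases hPp.mem_or_mem h' with h' | h'
    · rcases hPp.mem_or_mem h' with h' | h'
      · exact hm₀ h'
      · exact hQ₀P h'
    · exact hQ₂P h'
  refine ⟨Q, e m₀ + D₀ + (d₁ + 1), hQhom, hQP, ?_, ?_, _, _, _, hmodel⟩
  · -- properness
    obtain ⟨σ, τ, h', hσ0⟩ := hX.chart x₁.rep hx₁K.1
    have hKσ : ∀ᶠ p in 𝓝 (0 : ℂ × ℂ), σ p ∈ locCone P G := by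
      have h1 := h'.σ_an.continuousAt.tendsto
      rw [hσ0] at h1
      filter_upwards [h1.eventually ((openPart_locCone h hP).rel _ hx₁K), h'.σ_mem] with p h2 h3
      exact h2 h3
    obtain ⟨p, hp1, hp2⟩ := ((hthin σ τ h' _ Q hQhom hQP).and_eventually hKσ).exists
    have h3 : Projectivization.mk ℂ (σ p) hp2.1.1 ∈ locVar P G := (mk_mem_locVar hP h.homG hp2.1.1).2 hp2
    exact ⟨_, h3, fun h4 => hp1 ((vanishesAt_mk hQhom hp2.1.1).1 h4)⟩
  · intro x hx
    have h1 : eval x.rep Q₁ = 0 := hx.2 Q₁ hQ₁S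
    show eval x.rep Q = 0
    rw [hQdef, map_mul, map_mul, map_mul, h1, zero_mul, mul_zero]

/-- The extension theorem for maps into the projective space. -/
theorem extends_of_modelF (hP : Homog P)
    {Q : MvPolynomial (Fin (N + 1)) ℂ} {D m j : ℕ} {Ω : (Fin (N + 1) → ℂ) → (Fin (N + 1) → ℂ) → (Fin (N + 1) → ℂ) → ℂ}
    (h : ModelK (cone P) (locCone P G) {x | x ∈ cone P ∧ eval x Q = 0} m j Ω (fun (_ : Unit) x => eval x Q) D)
    {f : ℂ → PN N} (hf : HolomorphicInto f puncturedDisc) (hfX : ∀ z ∈ puncturedDisc, f z ∈ locVar P G)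
    (hfQ : ∃ z ∈ puncturedDisc, ¬ VanishesAt Q (f z)) :
    ∃ g : ℂ → PN N, HolomorphicInto g (Metric.ball 0 1) ∧ ∀ z ∈ puncturedDisc, g z = f z := by
  obtain ⟨z₁, hz₁, hz₁Q⟩ := hfQ
  have hball : ∀ z : ℂ, z ≠ 0 → ‖z‖ < 1 → z ∈ puncturedDisc := fun z h0 h1 => ⟨by simpa using h1, h0⟩
  have hball' : ∀ z ∈ puncturedDisc, z ≠ 0 ∧ ‖z‖ < 1 := fun z hz => ⟨hz.2, by simpa using hz.1⟩
  obtain ⟨F, hF, hF0, he⟩ := picard_of_modelK h 1 one_pos (fun z => (f z).rep)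
    (fun z h0 h1 => ⟨holP_rep hf (hball z h0 h1), (rep_mem_locCone hP).2 (hfX z (hball z h0 h1))⟩)
    ⟨z₁, (hball' z₁ hz₁).1, (hball' z₁ hz₁).2, fun h => hz₁Q h.2⟩
  classical
  refine ⟨fun z => if z = 0 then Projectivization.mk ℂ (F 0) hF0 else f z, ?_, ?_⟩
  · intro z₀ hz₀
    by_cases h0 : z₀ = 0
    · subst h0
      refine ⟨F, hF, ?_⟩
      rw [eventually_nhdsWithin_iff] at he
      filter_upwards [he, hF.continuousAt.eventually_ne hF0] with z h1 h2
      refine ⟨h2, ?_⟩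
      by_cases h3 : z = 0
      · subst h3
        rw [if_pos rfl]
      · rw [if_neg h3, ← (h1 h3).mk_eq (f z).rep_nonzero h2, Projectivization.mk_rep]
    · obtain ⟨φ, hφ, hφe⟩ := hf z₀ ⟨hz₀, h0⟩
      refine ⟨φ, hφ, ?_⟩
      filter_upwards [hφe, isOpen_compl_singleton.mem_nhds (show z₀ ∈ ({0} : Set ℂ)ᶜ from h0)] with z h1 h2
      obtain ⟨h3, h4⟩ := h1
      have h5 : z ≠ 0 := h2
      exact ⟨h3, by rw [if_neg h5, h4]⟩
  · intro z hz
    exact if_neg hz.2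

end Pool.Agent.H62.SA
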